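import Pool.Agent.Lib.MP_43d316_gt.CubeSuff

namespace Pool.Agent.Results.MP_43d316_gt.FiveFamilies

open Pool.Agent.Lib.MP_43d316_gt

universe u

/-- The property `p` holds for some homomorphism from `R` to an algebraically closed field which
kills no non-zero-divisor of `R`. -/
def AtPoint (R : Type u) [CommRing R] (p : ∀ (k : Type u) [Field k], (R →+* k) → Prop) : Prop :=
  ∃ (k : Type u) (_ : Field k) (_ : IsAlgClosed k) (f : R →+* k),
    (∀ r ∈ nonZeroDivisors R, f r ≠ 0) ∧ p k f

/-- Let the ground ring be any commutative ring. Unless the parameters have `bi ≠ 0` and lie in the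
exceptional family at some point, and lie in a classical family at no point, the trivial knot is
not torsion exactly when the parameters lie in one of the five classical families at some point. -/
theorem result (R : Type u) [CommRing R] (a b0 b3 : Rˣ) (b1 b2 bi : R)
    (h : ¬ ((AtPoint R fun _ _ f =>
        f bi ≠ 0 ∧ Exceptional (f a) (f b0) (f b1) (f b2) (f b3) (f bi)) ∧
      ¬ AtPoint R fun _ _ f => Classical5 (f a) (f b0) (f b1) (f b2) (f b3) (f bi))) :
    ¬ KnotTorsion (a : R) b0 b1 b2 b3 bi ↔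
      AtPoint R fun _ _ f => Classical5 (f a) (f b0) (f b1) (f b2) (f b3) (f bi) := by
  refine ⟨fun ht => ?_, fun ⟨_, _, _, f, hf, hc⟩ => Cb.suff_ring f hf a b0 b3 b1 b2 bi hc⟩
  obtain ⟨k, _, _, f, hf, hc | hc⟩ := Rg.nec_ring a b0 b3 b1 b2 bi ht
  · exact ⟨k, _, ‹_›, f, hf, Cb.five_iff.2 (Or.inl hc)⟩
  · exact by_contra fun h1 => h ⟨⟨k, _, ‹_›, f, hf, hc⟩, h1⟩

end Pool.Agent.Results.MP_43d316_gt.FiveFamilies
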